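import Pool.Agent.helper97.NA.SpecE
import Pool.Agent.helper25.NA.NTG

set_option autoImplicit false

/-! Row nx:XTG of problem MP_baa4d7_al (toggle on normal chains fixed by an automorphism). -/

namespace Pool.Agent.NAB

open Pool.Agent.helper58.DC Pool.Agent.DI Pool.Agent.GR Pool.Agent.OB Pool.Agent.DR Pool.Agent.FI Pool.Agent.FI3 Pool.Agent.FI4 Pool.Agent.FI4I Pool.Agent.FI4E Pool.Agent.LE Pool.Agent.L5

theorem XTG : XTG_stmt := by
  classical
  intro Γ _ _ p _ R E β F hE hEc hER hβE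
  refine NTG_toggle {C | NCh p ⊤ R C ∧ FxC β C ∧ E ≤ nrm C ∧ ∀ Q ∈ C, Q ≤ cz E} (NTG_t E) (fun C => F (nrm C ⊓ nz E)) ?_
  intro C hC D' hD'
  obtain ⟨hN, hCβ, hEC, hCz⟩ : NCh p ⊤ R C ∧ FxC β C ∧ E ≤ nrm C ∧ ∀ Q ∈ C, Q ≤ cz E := hC
  have hC : PCh p ⊤ R C := hN.ch
  -- the largest term
  obtain ⟨P, hP⟩ : ∃ P, NTG_top E C P := by
    have hne : (C.filter fun Q => ¬ E ≤ Q).Nonempty := ⟨R, Finset.mem_filter.2 ⟨hC.mem, hER⟩⟩
    obtain ⟨P, hP⟩ := Finset.exists_maximal hne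
    have hP1 := Finset.mem_filter.1 hP.prop
    refine ⟨P, hP1.1, hP1.2, fun Q hQ hQY => ?_⟩
    rcases hC.chain.total hQ hP1.1 with h | h
    · exact h
    · exact hP.le_of_ge (Finset.mem_filter.2 ⟨hQ, hQY⟩) h
  have ht := NTG_t_eq hP
  have hEP : E ≤ nz P := fun y hy => NTG_nrm.1 (hEC hy) P hP.1
  have hczn : cz E ≤ nz E := Subgroup.centralizer_le_normalizer _
  set T := P ⊔ E with hT
  have hET : E ≤ T := le_sup_right
  have hPT : P ≤ T := le_sup_left
  have hRP : R ≤ P := hC.bot P hP.1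
  have hTP : P ≠ T := fun h => hP.2.1 (h ▸ hET)
  have hTR : R ≠ T := fun h => hER (h ▸ hET)
  have hTp : IsPGroup p T := IsPGroup.to_sup_of_normal_left' (hC.pg P hP.1) hE hEP
  have hTc : T ≤ cz E := sup_le (hCz P hP.1) hEc
  have hETn : E ≤ nz T := fun y hy => NTG_nz_sup (hEP hy) (hczn (hEc hy))
  have hTβ : am β T = T := by
    have h1 : am β P = P := hCβ P hP.1
    have h2 := hβE
    unfold am at h1 h2 ⊢
    rw [hT, Subgroup.map_sup, h1, h2]
  have hcmp : ∀ Q ∈ C, Q ≤ T ∨ T ≤ Q := by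
    intro Q hQ
    by_cases h : E ≤ Q
    · right
      rcases hC.chain.total hQ hP.1 with h1 | h1
      · exact absurd (h.trans h1) hP.2.1
      · exact sup_le h1 h
    · left
      exact (hP.2.2 Q hQ h).trans hPT
  have hlow : ∀ Q ∈ C, Q ≤ T → T ≤ nz Q := by
    intro Q hQ hQT
    have hEQ : E ≤ nz Q := fun y hy => NTG_nrm.1 (hEC hy) Q hQ
    by_cases h : E ≤ Q
    · -- then `Q = T`
      have h1 : T ≤ Q := by
        rcases hC.chain.total hQ hP.1 with h1 | h1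
        · exact absurd (h.trans h1) hP.2.1
        · exact sup_le h1 h
      exact h1.trans Subgroup.le_normalizer
    · exact sup_le (hN.nm Q hQ P hP.1 (hP.2.2 Q hQ h)) hEQ
  have hupp : ∀ Q ∈ C, T ≤ Q → Q ≤ nz T := by
    intro Q hQ hTQ x hx
    exact NTG_nz_sup (hN.nm P hP.1 Q hQ (hPT.trans hTQ) hx) (hczn (hCz Q hQ hx))
  have hmem : ∀ Q, Q ≠ T → (Q ∈ D' ↔ Q ∈ C) := by
    intro Q hQ
    rcases hD' with h | h
    · rw [h, Finset.mem_insert, ht]
      exact ⟨fun h => h.resolve_left hQ, Or.inr⟩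
    · rw [h, Finset.mem_erase, ht]
      exact ⟨fun h => h.2, fun h => ⟨hQ, h⟩⟩
  have hPD : NTG_top E D' P := by
    refine ⟨(hmem P hTP).2 hP.1, hP.2.1, fun Q hQ hQY => hP.2.2 Q ((hmem Q ?_).1 hQ) hQY⟩
    rintro rfl
    exact hQY hET
  have hDch : PCh p ⊤ R D' := by
    refine ⟨?_, (hmem R hTR).2 hC.mem, ?_, fun Q _ => le_top, ?_⟩
    · intro Q hQ Q' hQ' hne
      have hQ : Q ∈ D' := hQ
      have hQ' : Q' ∈ D' := hQ'
      by_cases h : Q = T
      · subst h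
        exact (hcmp Q' ((hmem Q' (Ne.symm hne)).1 hQ')).symm
      · by_cases h' : Q' = T
        · subst h'
          exact hcmp Q ((hmem Q h).1 hQ)
        · exact hC.chain.total ((hmem Q h).1 hQ) ((hmem Q' h').1 hQ')
    · intro Q hQ
      by_cases h : Q = T
      · subst h
        exact hRP.trans hPT
      · exact hC.bot Q ((hmem Q h).1 hQ)
    · intro Q hQ
      by_cases h : Q = T
      · subst h
        exact hTp
      · exact hC.pg Q ((hmem Q h).1 hQ)
  have hDn : NCh p ⊤ R D' := by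
    refine ⟨hDch, fun Q hQ Q' hQ' hle => ?_⟩
    by_cases h : Q = T
    · by_cases h' : Q' = T
      · rw [h, h']
        exact Subgroup.le_normalizer
      · rw [h]
        exact hupp Q' ((hmem Q' h').1 hQ') (h ▸ hle)
    · by_cases h' : Q' = T
      · rw [h']
        exact hlow Q ((hmem Q h).1 hQ) (h' ▸ hle)
      · exact hN.nm Q ((hmem Q h).1 hQ) Q' ((hmem Q' h').1 hQ') hle
  have hDβ : FxC β D' := by
    intro Q hQ
    by_cases h : Q = T
    · rw [h]
      exact hTβ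
    · exact hCβ Q ((hmem Q h).1 hQ)
  have hDc : ∀ Q ∈ D', Q ≤ cz E := by
    intro Q hQ
    by_cases h : Q = T
    · rw [h]
      exact hTc
    · exact hCz Q ((hmem Q h).1 hQ)
  -- normalisers
  have key : ∀ z : Γ, z ∈ nz E → (z ∈ nrm D' ↔ z ∈ nrm C) := by
    intro z hz
    rw [NTG_nrm, NTG_nrm]
    refine ⟨fun h Q hQ => ?_, fun h Q hQ => ?_⟩
    · by_cases h' : Q = T
      · rw [h']
        exact NTG_nz_sup (h P hPD.1) hz
      · exact h Q ((hmem Q h').2 hQ)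
    · by_cases h' : Q = T
      · rw [h']
        exact NTG_nz_sup (h P hP.1) hz
      · exact h Q ((hmem Q h').1 hQ)
  refine ⟨⟨hDn, hDβ, fun y hy => (key y (Subgroup.le_normalizer hy)).2 (hEC hy), hDc⟩,
    (NTG_t_eq hPD).trans ht.symm, ?_⟩
  have heq : nrm D' ⊓ nz E = nrm C ⊓ nz E := by
    ext z
    rw [Subgroup.mem_inf, Subgroup.mem_inf]
    exact and_congr_left fun hz => key z hz
  show F (nrm D' ⊓ nz E) = F (nrm C ⊓ nz E)
  rw [heq]

end Pool.Agent.NAB
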